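import Pool.Agent.Work.MP_e8d560_co.Defs

/-! Lower bounds for `F_E(n)` when the coefficients do not sum to zero, or when exactly one of them
has the sign opposite to the others. -/

namespace Pool.Agent.Work.MP_e8d560_co

open Finset Filter

theorem card_le_F {k : ℕ} {a : Fin k → ℤ} {n : ℕ} {A : Finset ℕ} (hA : A ⊆ Icc 1 n)
    (h : SolutionFree a A) : A.card ≤ F a n := by
  apply le_csSup
  · refine ⟨n, ?_⟩
    rintro m ⟨B, hB, _, rfl⟩
    have := Finset.card_le_card hB
    rwa [Nat.card_Icc, Nat.add_sub_cancel] at this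
  · exact ⟨A, hA, h, rfl⟩

theorem F_attained {k : ℕ} (hk : 0 < k) (a : Fin k → ℤ) (n : ℕ) :
    ∃ A : Finset ℕ, A ⊆ Icc 1 n ∧ SolutionFree a A ∧ A.card = F a n := by
  have h : F a n ∈ {m | ∃ A : Finset ℕ, A ⊆ Finset.Icc 1 n ∧ SolutionFree a A ∧ A.card = m} := by
    apply Nat.sSup_mem
    · exact ⟨0, ∅, by simp, fun x hx _ => absurd (hx ⟨0, hk⟩) (by simp), rfl⟩
    · refine ⟨n, ?_⟩
      rintro m ⟨B, hB, _, rfl⟩
      have := Finset.card_le_card hB
      rwa [Nat.card_Icc, Nat.add_sub_cancel] at this
  exact h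

theorem solutionFree_neg {k : ℕ} {a : Fin k → ℤ} {A : Finset ℕ} :
    SolutionFree (fun i => - a i) A ↔ SolutionFree a A := by
  have key : ∀ x : Fin k → ℕ, ∑ i, (- a i) * (x i : ℤ) = - ∑ i, a i * (x i : ℤ) := by
    intro x
    rw [← Finset.sum_neg_distrib]
    exact Finset.sum_congr rfl (fun i _ => by ring)
  constructor
  · intro h x h1 h2 h3
    apply h x h1 h2
    rw [key, h3, neg_zero]
  · intro h x h1 h2 h3
    apply h x h1 h2
    rw [key] at h3
    omega

theorem F_neg {k : ℕ} (a : Fin k → ℤ) : F (fun i => - a i) = F a := by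
  funext n
  unfold F
  simp only [solutionFree_neg]

/-- a growth contradiction -/
theorem growth {f : ℕ → ℕ} {α : ℝ} (h : Comparable f α) {q d : ℕ} (hq : 1 ≤ q) (hd : 1 ≤ d)
    {c e : ℝ} (hc : 0 < c) (he : (d : ℝ) * α < e)
    (hf : ∀ D : ℕ, 1 ≤ D → c * (D : ℝ) ^ e ≤ f ((q * D) ^ d)) : False := by
  obtain ⟨c₁, c₂, h1, h2, h3⟩ := h
  have hc2 : 0 < c₂ := lt_of_lt_of_le h1 h2
  have t1 : Tendsto (fun D : ℕ => (q * D) ^ d) atTop atTop := by
    apply tendsto_atTop_mono (f := fun D => D) _ tendsto_id
    intro D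
    calc D ≤ q * D := Nat.le_mul_of_pos_left _ hq
      _ ≤ (q * D) ^ d := Nat.le_self_pow (by omega) _
  have t2 : Tendsto (fun D : ℕ => (D : ℝ) ^ (e - d * α)) atTop atTop :=
    (tendsto_rpow_atTop (by linarith)).comp tendsto_natCast_atTop_atTop
  have e1 := t1.eventually h3
  have e2 := t2.eventually (eventually_gt_atTop (c₂ * (q : ℝ) ^ ((d : ℝ) * α) / c))
  obtain ⟨D, g1, g2, g3⟩ := (e1.and (e2.and (eventually_ge_atTop 1))).exists
  have hD : (0 : ℝ) < D := by exact_mod_cast g3
  have hqp : (0 : ℝ) < q := by exact_mod_cast hq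
  have g4 := (hf D g3).trans g1.2
  have g5 : (((q * D) ^ d : ℕ) : ℝ) ^ α = (q : ℝ) ^ ((d : ℝ) * α) * (D : ℝ) ^ ((d : ℝ) * α) := by
    push_cast
    rw [← Real.rpow_natCast, ← Real.rpow_mul (by positivity), Real.mul_rpow hqp.le hD.le]
  rw [g5] at g4
  have g6 : (D : ℝ) ^ e = (D : ℝ) ^ (e - d * α) * (D : ℝ) ^ ((d : ℝ) * α) := by
    rw [← Real.rpow_add hD]
    congr 1
    ring
  rw [g6] at g4
  have hpos : 0 < (D : ℝ) ^ ((d : ℝ) * α) := Real.rpow_pos_of_pos hD _
  have g7 : c * (D : ℝ) ^ (e - d * α) ≤ c₂ * (q : ℝ) ^ ((d : ℝ) * α) := by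
    by_contra hcon
    push Not at hcon
    have := mul_lt_mul_of_pos_right hcon hpos
    nlinarith
  rw [div_lt_iff₀ hc] at g2
  linarith

/-- non-zero coefficient sum: linear lower bound -/
theorem linear {k : ℕ} (a : Fin k → ℤ) (ha : ∑ i, a i ≠ 0) :
    ∃ M : ℕ, 1 ≤ M ∧ ∀ D : ℕ, D ≤ F a (M * D) := by
  set M := (∑ i, a i).natAbs + 1 with hM
  refine ⟨M, by omega, fun D => ?_⟩
  set A := (range D).image (fun t => 1 + M * t) with hA
  have hcard : A.card = D := by
    rw [hA, Finset.card_image_of_injective, Finset.card_range]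
    intro s t h
    simp only at h
    have h' : M * s = M * t := by omega
    exact Nat.eq_of_mul_eq_mul_left (by omega) h'
  rw [← hcard]
  nth_rw 2 [hcard]
  apply card_le_F
  · intro x hx
    rw [hA, Finset.mem_image] at hx
    obtain ⟨t, ht, rfl⟩ := hx
    rw [Finset.mem_range] at ht
    rw [Finset.mem_Icc]
    refine ⟨by omega, ?_⟩
    have : M * (t + 1) ≤ M * D := Nat.mul_le_mul_left _ ht
    rw [mul_add, mul_one] at this
    omega
  · intro x hx _ h0
    have h1 : ∀ i, ∃ t : ℕ, x i = 1 + M * t := by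
      intro i
      have := hx i
      rw [hA, Finset.mem_image] at this
      obtain ⟨t, _, ht⟩ := this
      exact ⟨t, ht.symm⟩
    choose t ht using h1
    have h2 : ∑ i, a i * (x i : ℤ) = ∑ i, a i + M * ∑ i, a i * (t i : ℤ) := by
      rw [Finset.mul_sum, ← Finset.sum_add_distrib]
      apply Finset.sum_congr rfl
      intro i _
      rw [ht i]
      push_cast
      ring
    rw [h0] at h2
    have h3 : (M : ℤ) ∣ ∑ i, a i := ⟨-∑ i, a i * (t i : ℤ), by linarith⟩
    have h4 := Int.natAbs_dvd_natAbs.mpr h3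
    have h5 := Nat.le_of_dvd (Int.natAbs_pos.mpr ha) h4
    simp only [Int.natAbs_natCast] at h5
    omega

theorem map_lt {d q : ℕ} (v : Fin d → ℕ) (hv : ∀ i, v i < q) : Behrend.map q v < q ^ d := by
  induction d with
  | zero => simp
  | succ d ih =>
    rw [Behrend.map_succ']
    have h1 := ih (v ∘ Fin.succ) (fun i => hv _)
    have h2 := hv 0
    have h3 : (Behrend.map q (v ∘ Fin.succ) + 1) * q ≤ q ^ d * q := Nat.mul_le_mul_right _ h1
    rw [add_mul, one_mul, ← pow_succ] at h3
    omega

/-- Behrend's construction when exactly one coefficient is negative. -/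
theorem convex {k : ℕ} (hk : 2 ≤ k) (a : Fin k → ℤ) (i0 : Fin k) (hpos : ∀ i, i ≠ i0 → 0 < a i)
    (hsum : ∑ i, a i = 0) (d : ℕ) :
    ∃ s : ℕ, 1 ≤ s ∧ ∀ D : ℕ, 1 ≤ D → ((D : ℝ) ^ d) / (d * (D : ℝ) ^ 2) ≤ F a ((s * D) ^ d) := by
  classical
  have hs0 : ∑ i ∈ univ.erase i0, a i + a i0 = 0 := by
    rw [Finset.sum_erase_add _ _ (Finset.mem_univ _), hsum]
  obtain ⟨i1, hi1⟩ : ∃ i1 : Fin k, i1 ≠ i0 := by
    have : 1 < Fintype.card (Fin k) := by rw [Fintype.card_fin]; omega
    have := Fintype.one_lt_card_iff_nontrivial.mp this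
    exact exists_ne i0
  have hneg : a i0 < 0 := by
    have : 0 < ∑ i ∈ univ.erase i0, a i :=
      Finset.sum_pos (fun i hi => hpos i (Finset.ne_of_mem_erase hi))
        ⟨i1, Finset.mem_erase.mpr ⟨hi1, Finset.mem_univ _⟩⟩
    omega
  set s := (a i0).natAbs with hs
  have hsz : (s : ℤ) = - a i0 := by omega
  refine ⟨s, by omega, fun D hD => ?_⟩
  obtain ⟨r, hr⟩ := Behrend.exists_large_sphere d D
  set q := s * D with hq
  have hsD : D ≤ q := Nat.le_mul_of_pos_left _ (by omega)
  set A := (Behrend.sphere d D r).image (fun v => 1 + Behrend.map q v) with hA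
  have hinj : Set.InjOn (fun v => 1 + Behrend.map q v) (Behrend.sphere d D r : Set (Fin d → ℕ)) := by
    intro v hv w hw e
    simp only [Nat.add_left_cancel_iff] at e
    apply Behrend.map_injOn _ _ e
    · intro i
      exact lt_of_lt_of_le (Behrend.mem_box.mp (Behrend.sphere_subset_box hv) i) hsD
    · intro i
      exact lt_of_lt_of_le (Behrend.mem_box.mp (Behrend.sphere_subset_box hw) i) hsD
  have hcard : A.card = (Behrend.sphere d D r).card := Finset.card_image_of_injOn hinj
  have main : A.card ≤ F a (q ^ d) := by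
    apply card_le_F
    · intro x hx
      rw [hA, Finset.mem_image] at hx
      obtain ⟨v, hv, rfl⟩ := hx
      rw [Finset.mem_Icc]
      have := map_lt (q := q) v (fun i =>
        lt_of_lt_of_le (Behrend.mem_box.mp (Behrend.sphere_subset_box hv) i) hsD)
      omega
    · intro x hx hxinj h0
      have h1 : ∀ i, ∃ v ∈ Behrend.sphere d D r, 1 + Behrend.map q v = x i := by
        intro i
        have := hx i
        rwa [hA, Finset.mem_image] at this
      choose v hv hvx using h1
      have hvlt : ∀ i j, v i j < D := fun i j =>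
        Behrend.mem_box.mp (Behrend.sphere_subset_box (hv i)) j
      -- the digit-wise equation
      have h2 : Behrend.map q (∑ i ∈ univ.erase i0, (a i).natAbs • v i) =
          Behrend.map q (s • v i0) := by
        rw [map_sum, map_nsmul]
        simp only [map_nsmul, smul_eq_mul]
        have e1 : ∑ i ∈ univ.erase i0, a i * (x i : ℤ) + a i0 * (x i0 : ℤ) = 0 := by
          rw [Finset.sum_erase_add _ _ (Finset.mem_univ _)]
          exact h0
        have e2 : ∑ i ∈ univ.erase i0, a i * (x i : ℤ) = ∑ i ∈ univ.erase i0, a i +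
            ∑ i ∈ univ.erase i0, a i * ((Behrend.map q (v i) : ℕ) : ℤ) := by
          rw [← Finset.sum_add_distrib]
          apply Finset.sum_congr rfl
          intro i _
          rw [← hvx i]
          push_cast
          ring
        have e3 : ∑ i ∈ univ.erase i0, a i * ((Behrend.map q (v i) : ℕ) : ℤ) =
            s * ((Behrend.map q (v i0) : ℕ) : ℤ) := by
          rw [e2, ← hvx i0] at e1
          rw [hsz]
          push_cast at e1 ⊢
          linarith
        have e4 : ((∑ i ∈ univ.erase i0, (a i).natAbs * Behrend.map q (v i) : ℕ) : ℤ) =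
            ((s * Behrend.map q (v i0) : ℕ) : ℤ) := by
          push_cast
          rw [← e3]
          apply Finset.sum_congr rfl
          intro i hi
          rw [abs_of_pos (hpos i (Finset.ne_of_mem_erase hi))]
        exact_mod_cast e4
      have hnat : ∑ i ∈ univ.erase i0, (a i).natAbs = s := by
        have : ((∑ i ∈ univ.erase i0, (a i).natAbs : ℕ) : ℤ) = s := by
          push_cast
          rw [hsz]
          have : ∑ i ∈ univ.erase i0, |a i| = ∑ i ∈ univ.erase i0, a i := by
            apply Finset.sum_congr rfl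
            intro i hi
            rw [abs_of_pos (hpos i (Finset.ne_of_mem_erase hi))]
          rw [this]
          linarith
        exact_mod_cast this
      have h3 : ∑ i ∈ univ.erase i0, (a i).natAbs • v i = s • v i0 := by
        apply Behrend.map_injOn _ _ h2
        · intro j
          rw [Finset.sum_apply]
          have : ∑ i ∈ univ.erase i0, ((a i).natAbs • v i) j ≤
              ∑ i ∈ univ.erase i0, (a i).natAbs * (D - 1) := by
            apply Finset.sum_le_sum
            intro i _
            rw [Pi.smul_apply, smul_eq_mul]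
            exact Nat.mul_le_mul_left _ (by have := hvlt i j; omega)
          rw [← Finset.sum_mul, hnat] at this
          have h5 : s * (D - 1) < s * D := Nat.mul_lt_mul_of_pos_left (by omega) (by omega)
          omega
        · intro j
          rw [Pi.smul_apply, smul_eq_mul]
          exact Nat.mul_lt_mul_of_pos_left (hvlt i0 j) (by omega)
      have h4 : ∀ j, ∑ i ∈ univ.erase i0, a i * (v i j : ℤ) = s * (v i0 j : ℤ) := by
        intro j
        have := congrFun h3 j
        rw [Finset.sum_apply, Pi.smul_apply, smul_eq_mul] at this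
        have h5 : ((∑ i ∈ univ.erase i0, ((a i).natAbs • v i) j : ℕ) : ℤ) =
          ((s * v i0 j : ℕ) : ℤ) := by rw [this]
        push_cast at h5
        rw [← h5]
        apply Finset.sum_congr rfl
        intro i hi
        rw [Pi.smul_apply, smul_eq_mul]
        push_cast
        rw [abs_of_pos (hpos i (Finset.ne_of_mem_erase hi))]
      have hsq : ∀ i, ∑ j, (v i j : ℤ) ^ 2 = r := by
        intro i
        have := (Finset.mem_filter.mp (hv i)).2
        exact_mod_cast this
      have h5 : ∑ i ∈ univ.erase i0, a i * ∑ j, ((v i j : ℤ) - v i0 j) ^ 2 = 0 := by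
        have e1 : ∀ i, ∑ j, ((v i j : ℤ) - v i0 j) ^ 2 = 2 * r - 2 * ∑ j, (v i0 j : ℤ) * v i j := by
          intro i
          have : ∑ j, ((v i j : ℤ) - v i0 j) ^ 2 = ∑ j, (v i j : ℤ) ^ 2 + ∑ j, (v i0 j : ℤ) ^ 2 -
              2 * ∑ j, (v i0 j : ℤ) * v i j := by
            rw [Finset.mul_sum, ← Finset.sum_add_distrib, ← Finset.sum_sub_distrib]
            apply Finset.sum_congr rfl
            intro j _
            ring
          rw [this, hsq, hsq]
          ring
        have e2 : ∑ i ∈ univ.erase i0, a i * ∑ j, (v i0 j : ℤ) * v i j = s * r := by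
          have : ∀ i, a i * ∑ j, (v i0 j : ℤ) * v i j = ∑ j, (v i0 j : ℤ) * (a i * v i j) := by
            intro i
            rw [Finset.mul_sum]
            exact Finset.sum_congr rfl (fun j _ => by ring)
          simp only [this]
          rw [Finset.sum_comm]
          simp only [← Finset.mul_sum, h4]
          rw [← hsq i0, Finset.mul_sum]
          exact Finset.sum_congr rfl (fun j _ => by ring)
        have e3 : ∑ i ∈ univ.erase i0, a i * ∑ j, ((v i j : ℤ) - v i0 j) ^ 2 =
            2 * r * ∑ i ∈ univ.erase i0, a i -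
              2 * ∑ i ∈ univ.erase i0, a i * ∑ j, (v i0 j : ℤ) * v i j := by
          rw [Finset.mul_sum, Finset.mul_sum, ← Finset.sum_sub_distrib]
          apply Finset.sum_congr rfl
          intro i _
          rw [e1]
          ring
        rw [e3, e2, hsz]
        linear_combination (2 * (r : ℤ)) * hs0
      have h6 := (Finset.sum_eq_zero_iff_of_nonneg (fun i hi =>
        mul_nonneg (hpos i (Finset.ne_of_mem_erase hi)).le
          (Finset.sum_nonneg (fun j _ => sq_nonneg _)))).mp h5 i1
          (Finset.mem_erase.mpr ⟨hi1, Finset.mem_univ _⟩)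
      have h7 : ∑ j, ((v i1 j : ℤ) - v i0 j) ^ 2 = 0 := by
        rcases mul_eq_zero.mp h6 with g | g
        · exact absurd g (hpos i1 hi1).ne'
        · exact g
      have h8 : v i1 = v i0 := by
        funext j
        have := (Finset.sum_eq_zero_iff_of_nonneg (fun j _ => sq_nonneg _)).mp h7 j
          (Finset.mem_univ _)
        have := pow_eq_zero_iff (two_ne_zero) |>.mp this
        omega
      apply hi1
      apply hxinj
      rw [← hvx, ← hvx, h8]
  rw [hcard] at main
  refine le_trans ?_ (by exact_mod_cast main : ((Behrend.sphere d D r).card : ℝ) ≤ _)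
  push_cast at hr
  exact hr

end Pool.Agent.Work.MP_e8d560_co
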