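import Mathlib

/-! Solution-free sets for a linear equation with distinct unknowns. -/

namespace Pool.Agent.Work.MP_e8d560_co

/-- `A` contains no solution of `∑ a i * x i = 0` in pairwise distinct unknowns. -/
def SolutionFree {k : ℕ} (a : Fin k → ℤ) (A : Finset ℕ) : Prop :=
  ∀ x : Fin k → ℕ, (∀ i, x i ∈ A) → Function.Injective x → ∑ i, a i * (x i : ℤ) ≠ 0

/-- `F_E(n)`: the maximal size of a solution-free subset of `{1, ..., n}`. -/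
noncomputable def F {k : ℕ} (a : Fin k → ℤ) (n : ℕ) : ℕ :=
  sSup {m | ∃ A : Finset ℕ, A ⊆ Finset.Icc 1 n ∧ SolutionFree a A ∧ A.card = m}

/-- `f n` is comparable to `n ^ α`. -/
def Comparable (f : ℕ → ℕ) (α : ℝ) : Prop :=
  ∃ c₁ c₂ : ℝ, 0 < c₁ ∧ c₁ ≤ c₂ ∧
    ∀ᶠ n : ℕ in Filter.atTop, c₁ * (n : ℝ) ^ α ≤ f n ∧ (f n : ℝ) ≤ c₂ * (n : ℝ) ^ α

end Pool.Agent.Work.MP_e8d560_co
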