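import Pool.Agent.Work.MP_e8d560_co.Convex

/-! Sets of integers with restricted digits in a base `N` modulo which the equation has exactly one
coefficient of one sign. -/

namespace Pool.Agent.Work.MP_e8d560_co

open Finset Filter

/-- Behrend's construction when exactly one coefficient is negative: only constant solutions. -/
theorem convexStrict {k : ℕ} (hk : 2 ≤ k) (a : Fin k → ℤ) (i0 : Fin k)
    (hpos : ∀ i, i ≠ i0 → 0 < a i) (hsum : ∑ i, a i = 0) (d D : ℕ) (hD : 1 ≤ D) :
    ∃ A : Finset ℕ, A ⊆ range (((a i0).natAbs * D) ^ d) ∧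
      ((D : ℝ) ^ d) / (d * (D : ℝ) ^ 2) ≤ A.card ∧
      ∀ x : Fin k → ℕ, (∀ i, x i ∈ A) → ∑ i, a i * (x i : ℤ) = 0 → ∀ i, x i = x i0 := by
  classical
  have hs0 : ∑ i ∈ univ.erase i0, a i + a i0 = 0 := by
    rw [Finset.sum_erase_add _ _ (Finset.mem_univ _), hsum]
  obtain ⟨i1, hi1⟩ : ∃ i1 : Fin k, i1 ≠ i0 := by
    have : 1 < Fintype.card (Fin k) := by rw [Fintype.card_fin]; omega
    have := Fintype.one_lt_card_iff_nontrivial.mp this
    exact exists_ne i0
  have hneg : a i0 < 0 := by
    have : 0 < ∑ i ∈ univ.erase i0, a i :=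
      Finset.sum_pos (fun i hi => hpos i (Finset.ne_of_mem_erase hi))
        ⟨i1, Finset.mem_erase.mpr ⟨hi1, Finset.mem_univ _⟩⟩
    omega
  set s := (a i0).natAbs with hs
  have hsz : (s : ℤ) = - a i0 := by omega
  obtain ⟨r, hr⟩ := Behrend.exists_large_sphere d D
  set q := s * D with hq
  have hsD : D ≤ q := Nat.le_mul_of_pos_left _ (by omega)
  set A := (Behrend.sphere d D r).image (fun v => Behrend.map q v) with hA
  have hinj : Set.InjOn (fun v => Behrend.map q v) (Behrend.sphere d D r : Set (Fin d → ℕ)) := by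
    intro v hv w hw e
    simp only at e
    apply Behrend.map_injOn _ _ e
    · intro i
      exact lt_of_lt_of_le (Behrend.mem_box.mp (Behrend.sphere_subset_box hv) i) hsD
    · intro i
      exact lt_of_lt_of_le (Behrend.mem_box.mp (Behrend.sphere_subset_box hw) i) hsD
  have hcard : A.card = (Behrend.sphere d D r).card := Finset.card_image_of_injOn hinj
  refine ⟨A, ?_, ?_, ?_⟩
  · intro x hx
    rw [hA, Finset.mem_image] at hx
    obtain ⟨v, hv, rfl⟩ := hx
    rw [Finset.mem_range]
    exact map_lt (q := q) v (fun i =>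
      lt_of_lt_of_le (Behrend.mem_box.mp (Behrend.sphere_subset_box hv) i) hsD)
  · rw [hcard]
    push_cast at hr
    exact hr
  · intro x hx h0
    have h1 : ∀ i, ∃ v ∈ Behrend.sphere d D r, Behrend.map q v = x i := by
      intro i
      have := hx i
      rwa [hA, Finset.mem_image] at this
    choose v hv hvx using h1
    have hvlt : ∀ i j, v i j < D := fun i j =>
      Behrend.mem_box.mp (Behrend.sphere_subset_box (hv i)) j
    -- the digit-wise equation
    have h2 : Behrend.map q (∑ i ∈ univ.erase i0, (a i).natAbs • v i) =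
        Behrend.map q (s • v i0) := by
      rw [map_sum, map_nsmul]
      simp only [map_nsmul, smul_eq_mul]
      have e1 : ∑ i ∈ univ.erase i0, a i * (x i : ℤ) + a i0 * (x i0 : ℤ) = 0 := by
        rw [Finset.sum_erase_add _ _ (Finset.mem_univ _)]
        exact h0
      have e4 : ((∑ i ∈ univ.erase i0, (a i).natAbs * Behrend.map q (v i) : ℕ) : ℤ) =
          ((s * Behrend.map q (v i0) : ℕ) : ℤ) := by
        push_cast
        rw [hvx i0, hsz]
        have e5 : ∑ i ∈ univ.erase i0, |a i| * ((Behrend.map q (v i) : ℕ) : ℤ) =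
            ∑ i ∈ univ.erase i0, a i * (x i : ℤ) := by
          apply Finset.sum_congr rfl
          intro i hi
          rw [abs_of_pos (hpos i (Finset.ne_of_mem_erase hi)), hvx i]
        rw [e5]
        linarith
      exact_mod_cast e4
    have hnat : ∑ i ∈ univ.erase i0, (a i).natAbs = s := by
      have : ((∑ i ∈ univ.erase i0, (a i).natAbs : ℕ) : ℤ) = s := by
        push_cast
        rw [hsz]
        have : ∑ i ∈ univ.erase i0, |a i| = ∑ i ∈ univ.erase i0, a i := by
          apply Finset.sum_congr rfl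
          intro i hi
          rw [abs_of_pos (hpos i (Finset.ne_of_mem_erase hi))]
        rw [this]
        linarith
      exact_mod_cast this
    have h3 : ∑ i ∈ univ.erase i0, (a i).natAbs • v i = s • v i0 := by
      apply Behrend.map_injOn _ _ h2
      · intro j
        rw [Finset.sum_apply]
        have : ∑ i ∈ univ.erase i0, ((a i).natAbs • v i) j ≤
            ∑ i ∈ univ.erase i0, (a i).natAbs * (D - 1) := by
          apply Finset.sum_le_sum
          intro i _
          rw [Pi.smul_apply, smul_eq_mul]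
          exact Nat.mul_le_mul_left _ (by have := hvlt i j; omega)
        rw [← Finset.sum_mul, hnat] at this
        have h5 : s * (D - 1) < s * D := Nat.mul_lt_mul_of_pos_left (by omega) (by omega)
        omega
      · intro j
        rw [Pi.smul_apply, smul_eq_mul]
        exact Nat.mul_lt_mul_of_pos_left (hvlt i0 j) (by omega)
    have h4 : ∀ j, ∑ i ∈ univ.erase i0, a i * (v i j : ℤ) = s * (v i0 j : ℤ) := by
      intro j
      have := congrFun h3 j
      rw [Finset.sum_apply, Pi.smul_apply, smul_eq_mul] at this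
      have h5 : ((∑ i ∈ univ.erase i0, ((a i).natAbs • v i) j : ℕ) : ℤ) =
        ((s * v i0 j : ℕ) : ℤ) := by rw [this]
      push_cast at h5
      rw [← h5]
      apply Finset.sum_congr rfl
      intro i hi
      rw [Pi.smul_apply, smul_eq_mul]
      push_cast
      rw [abs_of_pos (hpos i (Finset.ne_of_mem_erase hi))]
    have hsq : ∀ i, ∑ j, (v i j : ℤ) ^ 2 = r := by
      intro i
      have := (Finset.mem_filter.mp (hv i)).2
      exact_mod_cast this
    have h5 : ∑ i ∈ univ.erase i0, a i * ∑ j, ((v i j : ℤ) - v i0 j) ^ 2 = 0 := by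
      have e1 : ∀ i, ∑ j, ((v i j : ℤ) - v i0 j) ^ 2 = 2 * r - 2 * ∑ j, (v i0 j : ℤ) * v i j := by
        intro i
        have : ∑ j, ((v i j : ℤ) - v i0 j) ^ 2 = ∑ j, (v i j : ℤ) ^ 2 + ∑ j, (v i0 j : ℤ) ^ 2 -
            2 * ∑ j, (v i0 j : ℤ) * v i j := by
          rw [Finset.mul_sum, ← Finset.sum_add_distrib, ← Finset.sum_sub_distrib]
          apply Finset.sum_congr rfl
          intro j _
          ring
        rw [this, hsq, hsq]
        ring
      have e2 : ∑ i ∈ univ.erase i0, a i * ∑ j, (v i0 j : ℤ) * v i j = s * r := by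
        have : ∀ i, a i * ∑ j, (v i0 j : ℤ) * v i j = ∑ j, (v i0 j : ℤ) * (a i * v i j) := by
          intro i
          rw [Finset.mul_sum]
          exact Finset.sum_congr rfl (fun j _ => by ring)
        simp only [this]
        rw [Finset.sum_comm]
        simp only [← Finset.mul_sum, h4]
        rw [← hsq i0, Finset.mul_sum]
        exact Finset.sum_congr rfl (fun j _ => by ring)
      have e3 : ∑ i ∈ univ.erase i0, a i * ∑ j, ((v i j : ℤ) - v i0 j) ^ 2 =
          2 * r * ∑ i ∈ univ.erase i0, a i -
            2 * ∑ i ∈ univ.erase i0, a i * ∑ j, (v i0 j : ℤ) * v i j := by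
        rw [Finset.mul_sum, Finset.mul_sum, ← Finset.sum_sub_distrib]
        apply Finset.sum_congr rfl
        intro i _
        rw [e1]
        ring
      rw [e3, e2, hsz]
      linear_combination (2 * (r : ℤ)) * hs0
    intro i
    by_cases hi : i = i0
    · rw [hi]
    have h6 := (Finset.sum_eq_zero_iff_of_nonneg (fun i hi =>
      mul_nonneg (hpos i (Finset.ne_of_mem_erase hi)).le
        (Finset.sum_nonneg (fun j _ => sq_nonneg _)))).mp h5 i
        (Finset.mem_erase.mpr ⟨hi, Finset.mem_univ _⟩)
    have h7 : ∑ j, ((v i j : ℤ) - v i0 j) ^ 2 = 0 := by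
      rcases mul_eq_zero.mp h6 with g | g
      · exact absurd g (hpos i hi).ne'
      · exact g
    have h8 : v i = v i0 := by
      funext j
      have := (Finset.sum_eq_zero_iff_of_nonneg (fun j _ => sq_nonneg _)).mp h7 j
        (Finset.mem_univ _)
      have := pow_eq_zero_iff (two_ne_zero) |>.mp this
      omega
    rw [← hvx, ← hvx, h8]

/-- Integers with digits in `D` in base `N`. -/
theorem digitSet {k : ℕ} (a : Fin k → ℤ) (hsum : ∑ i, a i = 0) (i0 : Fin k) {N : ℕ}
    (D : Finset ℕ) (hDN : D ⊆ range N)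
    (hD : ∀ x : Fin k → ℕ, (∀ i, x i ∈ D) → (N : ℤ) ∣ ∑ i, a i * (x i : ℤ) → ∀ i, x i = x i0)
    (m : ℕ) : ∃ S : Finset ℕ, S ⊆ range (N ^ m) ∧ S.card = D.card ^ m ∧
      ∀ x : Fin k → ℕ, (∀ i, x i ∈ S) → ∑ i, a i * (x i : ℤ) = 0 → ∀ i, x i = x i0 := by
  classical
  induction m with
  | zero =>
    refine ⟨{0}, by simp, by simp, fun x hx _ i => ?_⟩
    have h1 := hx i
    have h2 := hx i0
    rw [Finset.mem_singleton] at h1 h2
    rw [h1, h2]
  | succ m ih =>
    obtain ⟨S, hS1, hS2, hS3⟩ := ih
    refine ⟨(D ×ˢ S).image (fun p => p.1 + N * p.2), ?_, ?_, ?_⟩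
    · intro x hx
      rw [Finset.mem_image] at hx
      obtain ⟨⟨d, t⟩, hp, rfl⟩ := hx
      rw [Finset.mem_product] at hp
      have h1 := Finset.mem_range.mp (hDN hp.1)
      have h2 := Finset.mem_range.mp (hS1 hp.2)
      rw [Finset.mem_range]
      simp only at h1 h2 ⊢
      have h3 : N * (t + 1) ≤ N * N ^ m := Nat.mul_le_mul_left _ h2
      rw [pow_succ, mul_comm (N ^ m) N]
      rw [mul_add, mul_one] at h3
      omega
    · rw [Finset.card_image_of_injOn, Finset.card_product, hS2, pow_succ, mul_comm]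
      rintro ⟨d, t⟩ hp ⟨d', t'⟩ hp' h
      rw [Finset.mem_coe, Finset.mem_product] at hp hp'
      have h1 := Finset.mem_range.mp (hDN hp.1)
      have h2 := Finset.mem_range.mp (hDN hp'.1)
      simp only at h h1 h2
      have h3 : d = d' := by
        have := congrArg (· % N) h
        simp only [Nat.add_mul_mod_self_left] at this
        rwa [Nat.mod_eq_of_lt h1, Nat.mod_eq_of_lt h2] at this
      subst h3
      have h4 : N * t = N * t' := by omega
      have h5 := Nat.eq_of_mul_eq_mul_left (by omega) h4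
      rw [h5]
    · intro x hx h0
      have h1 : ∀ i, ∃ p ∈ D ×ˢ S, p.1 + N * p.2 = x i := fun i => by
        have := hx i
        rwa [Finset.mem_image] at this
      choose p hp hpx using h1
      have hsplit : ∑ i, a i * (x i : ℤ) =
          ∑ i, a i * ((p i).1 : ℤ) + N * ∑ i, a i * ((p i).2 : ℤ) := by
        rw [Finset.mul_sum, ← Finset.sum_add_distrib]
        apply Finset.sum_congr rfl
        intro i _
        rw [← hpx i]
        push_cast
        ring
      have hd := hD (fun i => (p i).1) (fun i => (Finset.mem_product.mp (hp i)).1)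
        ⟨-∑ i, a i * ((p i).2 : ℤ), by rw [h0] at hsplit; linarith⟩
      have hz : ∑ i, a i * ((p i).1 : ℤ) = 0 := by
        have : ∀ i, a i * ((p i).1 : ℤ) = a i * ((p i0).1 : ℤ) := fun i => by rw [hd i]
        rw [Finset.sum_congr rfl (fun i _ => this i), ← Finset.sum_mul, hsum, zero_mul]
      by_cases hN : N = 0
      · subst hN
        intro i
        have := (Finset.mem_product.mp (hp i)).1
        have := Finset.mem_range.mp (hDN this)
        omega
      have hz2 : ∑ i, a i * ((p i).2 : ℤ) = 0 := by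
        rw [h0, hz, zero_add] at hsplit
        rcases mul_eq_zero.mp hsplit.symm with g | g
        · exact absurd g (by exact_mod_cast hN)
        · exact g
      have hs := hS3 (fun i => (p i).2) (fun i => (Finset.mem_product.mp (hp i)).2) hz2
      intro i
      rw [← hpx i, ← hpx i0, hd i, hs i]

/-- The lower bound along powers of the base. -/
theorem digit_le_F {k : ℕ} (hk : 2 ≤ k) (a : Fin k → ℤ) (hsum : ∑ i, a i = 0) (i0 : Fin k) {N : ℕ}
    (D : Finset ℕ) (hDN : D ⊆ range N)
    (hD : ∀ x : Fin k → ℕ, (∀ i, x i ∈ D) → (N : ℤ) ∣ ∑ i, a i * (x i : ℤ) → ∀ i, x i = x i0)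
    (m : ℕ) : D.card ^ m ≤ F a (N ^ m) := by
  classical
  obtain ⟨S, hS1, hS2, hS3⟩ := digitSet a hsum i0 D hDN hD m
  obtain ⟨i1, hi1⟩ : ∃ i1 : Fin k, i1 ≠ i0 := by
    have : 1 < Fintype.card (Fin k) := by rw [Fintype.card_fin]; omega
    have := Fintype.one_lt_card_iff_nontrivial.mp this
    exact exists_ne i0
  have hc : (S.image (fun t => t + 1)).card = D.card ^ m := by
    rw [Finset.card_image_of_injective _ (fun s t h => by simpa using h), hS2]
  rw [← hc]
  apply card_le_F
  · intro x hx
    rw [Finset.mem_image] at hx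
    obtain ⟨t, ht, rfl⟩ := hx
    have := Finset.mem_range.mp (hS1 ht)
    rw [Finset.mem_Icc]
    omega
  · intro x hx hinj h0
    have h1 : ∀ i, ∃ t ∈ S, t + 1 = x i := fun i => by
      have := hx i
      rwa [Finset.mem_image] at this
    choose t ht htx using h1
    have h2 : ∑ i, a i * (t i : ℤ) = 0 := by
      have : ∑ i, a i * (x i : ℤ) = ∑ i, a i * (t i : ℤ) + ∑ i, a i := by
        rw [← Finset.sum_add_distrib]
        apply Finset.sum_congr rfl
        intro i _
        rw [← htx i]
        push_cast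
        ring
      rw [h0, hsum] at this
      linarith
    have h3 := hS3 t ht h2 i1
    apply hi1
    apply hinj
    rw [← htx, ← htx, h3]

theorem F_mono {k : ℕ} (hk : 0 < k) (a : Fin k → ℤ) {m n : ℕ} (h : m ≤ n) : F a m ≤ F a n := by
  obtain ⟨A, h1, h2, h3⟩ := F_attained hk a m
  rw [← h3]
  exact card_le_F (h1.trans (Finset.Icc_subset_Icc_right h)) h2

end Pool.Agent.Work.MP_e8d560_co
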