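import Pool.Agent.Work.MP_e8d560_co.Defs

/-! Equations with a proper zero-sum set of coefficients: solution-free sets have size `O(√n)`. -/

namespace Pool.Agent.Work.MP_e8d560_co

open Finset

/-- avoiding a small set of values inside a class of a linear form -/
theorem pick {α β : ℤ} (hα : α ≠ 0) (hβ : β ≠ 0) {v : ℤ} {C : Finset (ℕ × ℕ)}
    (hC : ∀ t ∈ C, α * (t.1 : ℤ) + β * (t.2 : ℤ) = v) {S : Finset ℕ} (h : 2 * S.card < C.card) :
    ∃ t ∈ C, t.1 ∉ S ∧ t.2 ∉ S := by
  classical
  by_contra hcon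
  push Not at hcon
  have h1 : (C.filter (fun t => t.1 ∈ S)).card ≤ S.card := by
    apply Finset.card_le_card_of_injOn (fun t => t.1)
    · intro t ht
      exact (Finset.mem_filter.mp ht).2
    · intro t ht t' ht' e
      have e1 := hC t (Finset.mem_filter.mp ht).1
      have e2 := hC t' (Finset.mem_filter.mp ht').1
      simp only at e
      rw [e] at e1
      have : β * (t.2 : ℤ) = β * (t'.2 : ℤ) := by linarith
      have := mul_left_cancel₀ hβ this
      exact Prod.ext e (by exact_mod_cast this)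
  have h2 : (C.filter (fun t => t.2 ∈ S)).card ≤ S.card := by
    apply Finset.card_le_card_of_injOn (fun t => t.2)
    · intro t ht
      exact (Finset.mem_filter.mp ht).2
    · intro t ht t' ht' e
      have e1 := hC t (Finset.mem_filter.mp ht).1
      have e2 := hC t' (Finset.mem_filter.mp ht').1
      simp only at e
      rw [e] at e1
      have : α * (t.1 : ℤ) = α * (t'.1 : ℤ) := by linarith
      have := mul_left_cancel₀ hα this
      exact Prod.ext (by exact_mod_cast this) e
  have h3 : C ⊆ C.filter (fun t => t.1 ∈ S) ∪ C.filter (fun t => t.2 ∈ S) := by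
    intro t ht
    rw [Finset.mem_union, Finset.mem_filter, Finset.mem_filter]
    by_cases c : t.1 ∈ S
    · exact Or.inl ⟨ht, c⟩
    · exact Or.inr ⟨ht, hcon t ht c⟩
  have h4 := Finset.card_le_card h3
  have h5 := Finset.card_union_le (C.filter (fun t => t.1 ∈ S)) (C.filter (fun t => t.2 ∈ S))
  omega

/-- the pairs lying in rich classes -/
theorem rich (α β : ℤ) (M : ℕ) {n : ℕ} (hn : 1 ≤ n) {A : Finset ℕ} (hA : A ⊆ Icc 1 n)
    {T : Finset (ℕ × ℕ)} (hT : T ⊆ A ×ˢ A) :
    T.card ≤ (T.filter (fun t => M < (T.filter (fun t' =>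
      α * (t'.1 : ℤ) + β * (t'.2 : ℤ) = α * (t.1 : ℤ) + β * (t.2 : ℤ))).card)).card +
      M * (2 * (α.natAbs + β.natAbs) + 1) * n := by
  classical
  set φ : ℕ × ℕ → ℤ := fun t => α * (t.1 : ℤ) + β * (t.2 : ℤ) with hφ
  set T1 := T.filter (fun t => M < (T.filter (fun t' => φ t' = φ t)).card) with hT1
  set T2 := T.filter (fun t => ¬ M < (T.filter (fun t' => φ t' = φ t)).card) with hT2
  have h1 : T1.card + T2.card = T.card := Finset.card_filter_add_card_filter_not _
  have h2 : T2.card ≤ M * (T2.image φ).card := by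
    apply Finset.card_le_mul_card_image
    intro v hv
    rw [Finset.mem_image] at hv
    obtain ⟨t, ht, rfl⟩ := hv
    have h3 := (Finset.mem_filter.mp ht).2
    push Not at h3
    refine le_trans (Finset.card_le_card ?_) h3
    intro t' ht'
    rw [Finset.mem_filter] at ht' ⊢
    exact ⟨(Finset.mem_filter.mp ht'.1).1, ht'.2⟩
  have h3 : T2.image φ ⊆ Icc (-(((α.natAbs + β.natAbs) * n : ℕ) : ℤ))
      (((α.natAbs + β.natAbs) * n : ℕ) : ℤ) := by
    intro v hv
    rw [Finset.mem_image] at hv
    obtain ⟨t, ht, rfl⟩ := hv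
    have h4 := hT (Finset.mem_filter.mp ht).1
    rw [Finset.mem_product] at h4
    have h5 := Finset.mem_Icc.mp (hA h4.1)
    have h6 := Finset.mem_Icc.mp (hA h4.2)
    rw [Finset.mem_Icc, ← abs_le]
    have h7 : |α * (t.1 : ℤ)| ≤ |α| * n := by
      rw [abs_mul]
      apply mul_le_mul_of_nonneg_left _ (abs_nonneg _)
      rw [abs_of_nonneg (by positivity)]
      exact_mod_cast h5.2
    have h8 : |β * (t.2 : ℤ)| ≤ |β| * n := by
      rw [abs_mul]
      apply mul_le_mul_of_nonneg_left _ (abs_nonneg _)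
      rw [abs_of_nonneg (by positivity)]
      exact_mod_cast h6.2
    have h9 := abs_add_le (α * (t.1 : ℤ)) (β * (t.2 : ℤ))
    simp only [hφ]
    push_cast
    nlinarith
  have h4 := Finset.card_le_card h3
  rw [Int.card_Icc] at h4
  have h5 : (T2.image φ).card ≤ (2 * (α.natAbs + β.natAbs) + 1) * n := by
    refine le_trans h4 ?_
    have : (((α.natAbs + β.natAbs) * n : ℕ) : ℤ) + 1 - -(((α.natAbs + β.natAbs) * n : ℕ) : ℤ) =
      ((2 * ((α.natAbs + β.natAbs) * n) + 1 : ℕ) : ℤ) := by push_cast; ring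
    rw [this, Int.toNat_natCast]
    nlinarith
  have h6 : M * (T2.image φ).card ≤ M * (2 * (α.natAbs + β.natAbs) + 1) * n := by
    rw [mul_assoc]
    exact Nat.mul_le_mul_left _ h5
  omega

variable {ι : Type} [DecidableEq ι]

/-- the trivial value `(∑_P a) x + (∑_Q a) u` has a representation in pairwise distinct elements,
for some pair of every dense set of pairs -/
def Claim (a : ι → ℤ) (P Q : Finset ι) : Prop :=
  ∃ K : ℕ, ∀ (n : ℕ) (A : Finset ℕ) (T : Finset (ℕ × ℕ)), 1 ≤ n → A ⊆ Icc 1 n → T ⊆ A ×ˢ A →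
    (∀ t ∈ T, t.1 ≠ t.2) → K * n < T.card →
    ∃ t ∈ T, ∃ f : ι → ℕ, (∀ i ∈ P ∪ Q, f i ∈ A ∧ f i ≠ t.1 ∧ f i ≠ t.2) ∧
      Set.InjOn f (P ∪ Q : Finset ι) ∧
      ∑ i ∈ P, a i * (f i : ℤ) + ∑ i ∈ Q, a i * (f i : ℤ) =
        (∑ i ∈ P, a i) * (t.1 : ℤ) + (∑ i ∈ Q, a i) * (t.2 : ℤ)

theorem Claim.symm {a : ι → ℤ} {P Q : Finset ι} (h : Claim a P Q) : Claim a Q P := by
  obtain ⟨K, h⟩ := h
  refine ⟨K, fun n A T hn hA hT hne hK => ?_⟩
  have k1 : T.image Prod.swap ⊆ A ×ˢ A := by
    intro t ht
    rw [Finset.mem_image] at ht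
    obtain ⟨t', ht', rfl⟩ := ht
    have := Finset.mem_product.mp (hT ht')
    exact Finset.mem_product.mpr ⟨this.2, this.1⟩
  have k2 : ∀ t ∈ T.image Prod.swap, t.1 ≠ t.2 := by
    intro t ht
    rw [Finset.mem_image] at ht
    obtain ⟨t', ht', rfl⟩ := ht
    exact (hne t' ht').symm
  have k3 : K * n < (T.image Prod.swap).card := by
    rw [Finset.card_image_of_injective _ Prod.swap_injective]
    exact hK
  obtain ⟨t, ht, f, h1, h2, h3⟩ := h n A (T.image Prod.swap) hn hA k1 k2 k3
  rw [Finset.mem_image] at ht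
  obtain ⟨t', ht', rfl⟩ := ht
  refine ⟨t', ht', f, ?_, ?_, ?_⟩
  · intro i hi
    rw [Finset.union_comm] at hi
    obtain ⟨g1, g2, g3⟩ := h1 i hi
    exact ⟨g1, g3, g2⟩
  · rw [Finset.union_comm]; exact h2
  · simp only [Prod.fst_swap, Prod.snd_swap] at h3
    linarith

theorem claim_base {a : ι → ℤ} {i j : ι} (hij : i ≠ j) (hi : a i ≠ 0) (hj : a j ≠ 0) :
    Claim a {i} {j} := by
  classical
  refine ⟨4 * (2 * ((a i).natAbs + (a j).natAbs) + 1), fun n A T hn hA hT hne hK => ?_⟩
  have h1 := rich (a i) (a j) 4 hn hA hT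
  have h2 : 0 < (T.filter (fun t => 4 < (T.filter (fun t' =>
      a i * (t'.1 : ℤ) + a j * (t'.2 : ℤ) = a i * (t.1 : ℤ) + a j * (t.2 : ℤ))).card)).card := by
    omega
  obtain ⟨t, ht⟩ := Finset.card_pos.mp h2
  rw [Finset.mem_filter] at ht
  obtain ⟨s, hs, hs1, hs2⟩ := pick hi hj (C := T.filter (fun t' =>
      a i * (t'.1 : ℤ) + a j * (t'.2 : ℤ) = a i * (t.1 : ℤ) + a j * (t.2 : ℤ)))
      (fun t' ht' => (Finset.mem_filter.mp ht').2) (S := {t.1, t.2}) (by
        have : ({t.1, t.2} : Finset ℕ).card ≤ 2 := Finset.card_le_two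
        omega)
  rw [Finset.mem_filter] at hs
  simp only [Finset.mem_insert, Finset.mem_singleton, not_or] at hs1 hs2
  have hsA := Finset.mem_product.mp (hT hs.1)
  refine ⟨t, ht.1, fun l => if l = i then s.1 else s.2, ?_, ?_, ?_⟩
  · intro l hl
    simp only [Finset.mem_union, Finset.mem_singleton] at hl
    rcases hl with rfl | rfl
    · simp only [if_true]; exact ⟨hsA.1, hs1.1, hs1.2⟩
    · simp only [if_neg (Ne.symm hij)]; exact ⟨hsA.2, hs2.1, hs2.2⟩
  · intro l hl l' hl' e
    simp only [Finset.coe_union, Finset.coe_singleton, Set.mem_union, Set.mem_singleton_iff]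
      at hl hl'
    rcases hl with rfl | rfl <;> rcases hl' with rfl | rfl
    · rfl
    · simp only [if_true, if_neg (Ne.symm hij)] at e
      exact absurd e (hne s hs.1)
    · simp only [if_true, if_neg (Ne.symm hij)] at e
      exact absurd e.symm (hne s hs.1)
    · rfl
  · simp only [Finset.sum_singleton, if_true, if_neg (Ne.symm hij)]
    exact hs.2

theorem claim_step {a : ι → ℤ} {P Q : Finset ι} {q : ι} (hPQ : Disjoint P (insert q Q))
    (hq : q ∉ Q) (h : Claim a P Q) (hP : ∑ i ∈ P, a i ≠ 0) (hQ : ∑ i ∈ insert q Q, a i ≠ 0) :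
    Claim a P (insert q Q) := by
  classical
  obtain ⟨K, h⟩ := h
  set α := ∑ i ∈ P, a i with hα
  set β := ∑ i ∈ insert q Q, a i with hβ
  set M := 2 * (P.card + Q.card + 2) with hM
  refine ⟨K + M * (2 * (α.natAbs + β.natAbs) + 1), fun n A T hn hA hT hne hK => ?_⟩
  have h1 := rich α β M hn hA hT
  set T' := T.filter (fun t => M < (T.filter (fun t' =>
      α * (t'.1 : ℤ) + β * (t'.2 : ℤ) = α * (t.1 : ℤ) + β * (t.2 : ℤ))).card) with hT'
  rw [add_mul] at hK
  obtain ⟨t, ht, f, g1, g2, g3⟩ := h n A T' hn hA ((Finset.filter_subset _ _).trans hT)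
    (fun t ht => hne t (Finset.mem_filter.mp ht).1) (by omega)
  rw [hT', Finset.mem_filter] at ht
  set S : Finset ℕ := (P ∪ Q).image f ∪ {t.1, t.2} with hS
  have hScard : S.card ≤ P.card + Q.card + 2 := by
    have e1 : S.card ≤ ((P ∪ Q).image f).card + ({t.1, t.2} : Finset ℕ).card :=
      Finset.card_union_le _ _
    have e2 : ((P ∪ Q).image f).card ≤ (P ∪ Q).card := Finset.card_image_le
    have e3 := Finset.card_union_le P Q
    have e4 : ({t.1, t.2} : Finset ℕ).card ≤ 2 := Finset.card_le_two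
    omega
  obtain ⟨s, hs, hs1, hs2⟩ := pick hP hQ (C := T.filter (fun t' =>
      α * (t'.1 : ℤ) + β * (t'.2 : ℤ) = α * (t.1 : ℤ) + β * (t.2 : ℤ)))
      (fun t' ht' => (Finset.mem_filter.mp ht').2) (S := S) (by omega)
  rw [Finset.mem_filter] at hs
  have htA := Finset.mem_product.mp (hT ht.1)
  have hqP : q ∉ P := fun h => (Finset.disjoint_left.mp hPQ h) (Finset.mem_insert_self _ _)
  have hf : ∀ i ∈ P ∪ Q, f i ∈ S := fun i hi =>
    Finset.mem_union_left _ (Finset.mem_image_of_mem _ hi)
  have ht1 : t.1 ∈ S := by simp [hS]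
  have ht2 : t.2 ∈ S := by simp [hS]
  have hqn : q ∉ P ∪ Q := by
    rw [Finset.mem_union, not_or]; exact ⟨hqP, hq⟩
  have hfq : ∀ i ∈ P ∪ Q, Function.update f q t.2 i = f i := fun i hi =>
    Function.update_of_ne (fun e => hqn (by rw [← e]; exact hi)) _ _
  refine ⟨s, hs.1, Function.update f q t.2, ?_, ?_, ?_⟩
  · intro i hi
    by_cases e : i = q
    · subst e
      rw [Function.update_self]
      exact ⟨htA.2, fun e => hs1 (e ▸ ht2), fun e => hs2 (e ▸ ht2)⟩
    · have hi' : i ∈ P ∪ Q := by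
        rw [Finset.mem_union, Finset.mem_insert] at hi
        rw [Finset.mem_union]
        tauto
      rw [hfq i hi']
      exact ⟨(g1 i hi').1, fun e => hs1 (e ▸ hf i hi'), fun e => hs2 (e ▸ hf i hi')⟩
  · have hset : ((P ∪ insert q Q : Finset ι) : Set ι) = insert q ((P ∪ Q : Finset ι) : Set ι) := by
      ext i
      simp only [Finset.coe_union, Finset.coe_insert, Set.mem_union, Set.mem_insert_iff,
        Finset.mem_coe]
      tauto
    rw [hset, Set.injOn_insert (by exact_mod_cast hqn)]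
    refine ⟨?_, ?_⟩
    · intro i hi j hj e
      rw [hfq i (by exact_mod_cast hi), hfq j (by exact_mod_cast hj)] at e
      exact g2 hi hj e
    · rintro ⟨i, hi, e⟩
      rw [hfq i (by exact_mod_cast hi), Function.update_self] at e
      exact (g1 i (by exact_mod_cast hi)).2.2 e
  · rw [Finset.sum_insert hq, Function.update_self]
    have e1 : ∑ i ∈ P, a i * ((Function.update f q t.2 i : ℕ) : ℤ) = ∑ i ∈ P, a i * (f i : ℤ) :=
      Finset.sum_congr rfl (fun i hi => by rw [hfq i (Finset.mem_union_left _ hi)])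
    have e2 : ∑ i ∈ Q, a i * ((Function.update f q t.2 i : ℕ) : ℤ) = ∑ i ∈ Q, a i * (f i : ℤ) :=
      Finset.sum_congr rfl (fun i hi => by rw [hfq i (Finset.mem_union_right _ hi)])
    rw [e1, e2]
    have e3 : β = a q + ∑ i ∈ Q, a i := by rw [hβ, Finset.sum_insert hq]
    have e4 := hs.2
    rw [e4, e3]
    linear_combination g3

/-- sets that can be built up one element at a time with nonzero sums -/
inductive Good (a : ι → ℤ) : Finset ι → Prop
  | single (i : ι) (h : a i ≠ 0) : Good a {i}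
  | insert (i : ι) (P : Finset ι) (hi : i ∉ P) (hP : Good a P)
      (hs : ∑ j ∈ insert i P, a j ≠ 0) : Good a (insert i P)

theorem Good.sum_ne {a : ι → ℤ} {P : Finset ι} (h : Good a P) : ∑ i ∈ P, a i ≠ 0 := by
  cases h with
  | single i h => simpa using h
  | insert i P hi hP hs => exact hs

theorem claim_left {a : ι → ℤ} {j : ι} (hj : a j ≠ 0) {P : Finset ι} (hP : Good a P)
    (h : j ∉ P) : Claim a P {j} := by
  induction hP with
  | single i hi =>
    exact claim_base (fun e => h (by rw [e]; exact Finset.mem_singleton_self _)) hi hj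
  | insert i P hi hP hs ih =>
    have h' : j ∉ P := fun g => h (Finset.mem_insert_of_mem g)
    refine (claim_step ?_ hi (ih h').symm (by simpa using hj) hs).symm
    rw [Finset.disjoint_singleton_left]
    exact h

theorem claim_all {a : ι → ℤ} {P Q : Finset ι} (hP : Good a P) (hQ : Good a Q)
    (h : Disjoint P Q) : Claim a P Q := by
  induction hQ with
  | single j hj => exact claim_left hj hP (by simpa using h)
  | insert j Q hj hQ hs ih =>
    exact claim_step h hj (ih (h.mono_right (Finset.subset_insert _ _))) hP.sum_ne hs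

theorem good_neg {a : ι → ℤ} {N : Finset ι} (hN : N.Nonempty) (h : ∀ i ∈ N, a i < 0) :
    Good a N := by
  induction hN using Finset.Nonempty.cons_induction with
  | singleton i => exact Good.single i (h i (by simp)).ne
  | cons i N hi hN ih =>
    rw [Finset.cons_eq_insert]
    rw [Finset.cons_eq_insert] at h
    refine Good.insert i N hi (ih (fun j hj => h j (Finset.mem_insert_of_mem hj))) ?_
    exact (Finset.sum_neg h ⟨i, Finset.mem_insert_self _ _⟩).ne

/-- a zero-sum set of nonzero coefficients is good after removing one positive element -/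
theorem exists_good {a : ι → ℤ} (T : Finset ι) (ha : ∀ i ∈ T, a i ≠ 0) (hT : T.Nonempty)
    (hsum : ∑ i ∈ T, a i = 0) : ∃ i ∈ T, Good a (T.erase i) := by
  classical
  set N := T.filter (fun i => a i < 0) with hN
  set R := T.filter (fun i => 0 < a i) with hR
  have hNR : T = N ∪ R := by
    ext i
    simp only [hN, hR, Finset.mem_union, Finset.mem_filter]
    constructor
    · intro hi
      rcases lt_or_gt_of_ne (ha i hi) with g | g
      · exact Or.inl ⟨hi, g⟩
      · exact Or.inr ⟨hi, g⟩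
    · rintro (g | g) <;> exact g.1
  have hdisj : Disjoint N R := by
    rw [Finset.disjoint_left]
    intro i hi hi'
    have h1 := (Finset.mem_filter.mp hi).2
    have h2 := (Finset.mem_filter.mp hi').2
    omega
  have hsplit : ∑ i ∈ N, a i + ∑ i ∈ R, a i = 0 := by
    rw [← Finset.sum_union hdisj, ← hNR, hsum]
  have hNne : N.Nonempty := by
    by_contra hcon
    rw [Finset.not_nonempty_iff_eq_empty] at hcon
    rw [hcon, Finset.sum_empty, zero_add] at hsplit
    rw [hcon, Finset.empty_union] at hNR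
    have : 0 < ∑ i ∈ R, a i :=
      Finset.sum_pos (fun i hi => (Finset.mem_filter.mp hi).2) (hNR ▸ hT)
    omega
  have hRne : R.Nonempty := by
    by_contra hcon
    rw [Finset.not_nonempty_iff_eq_empty] at hcon
    rw [hcon, Finset.sum_empty, add_zero] at hsplit
    have : ∑ i ∈ N, a i < 0 :=
      Finset.sum_neg (fun i hi => (Finset.mem_filter.mp hi).2) hNne
    omega
  obtain ⟨i0, hi0⟩ := hRne
  have key : ∀ R' : Finset ι, R' ⊆ R.erase i0 → Good a (N ∪ R') := by
    intro R'
    induction R' using Finset.induction_on with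
    | empty =>
      intro _
      rw [Finset.union_empty]
      exact good_neg hNne (fun i hi => (Finset.mem_filter.mp hi).2)
    | insert i R' hi ih =>
      intro hsub
      have hsub' : R' ⊆ R.erase i0 := (Finset.subset_insert _ _).trans hsub
      have hiR : i ∈ R.erase i0 := hsub (Finset.mem_insert_self _ _)
      have hiN : i ∉ N := fun g =>
        (Finset.disjoint_left.mp hdisj g) (Finset.mem_of_mem_erase hiR)
      have e : N ∪ insert i R' = insert i (N ∪ R') := by
        ext j; simp only [Finset.mem_union, Finset.mem_insert]; tauto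
      rw [e]
      refine Good.insert i _ (by rw [Finset.mem_union, not_or]; exact ⟨hiN, hi⟩) (ih hsub') ?_
      rw [← e, Finset.sum_union (hdisj.mono_right (hsub.trans (Finset.erase_subset _ _)))]
      have h1 : ∑ j ∈ insert i R', a j ≤ ∑ j ∈ R.erase i0, a j :=
        Finset.sum_le_sum_of_subset_of_nonneg hsub
          (fun j hj _ => (Finset.mem_filter.mp (Finset.mem_of_mem_erase hj)).2.le)
      have h2 : ∑ j ∈ R.erase i0, a j + a i0 = ∑ j ∈ R, a j := Finset.sum_erase_add _ _ hi0
      have h3 := (Finset.mem_filter.mp hi0).2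
      omega
  refine ⟨i0, (Finset.mem_filter.mp hi0).1, ?_⟩
  have e : T.erase i0 = N ∪ R.erase i0 := by
    have hi0N : i0 ∉ N := fun g => (Finset.disjoint_left.mp hdisj g) hi0
    ext j
    rw [Finset.mem_erase, hNR, Finset.mem_union, Finset.mem_union, Finset.mem_erase]
    constructor
    · rintro ⟨h1, h2 | h2⟩
      · exact Or.inl h2
      · exact Or.inr ⟨h1, h2⟩
    · rintro (h | h)
      · exact ⟨fun e => hi0N (e ▸ h), Or.inl h⟩
      · exact ⟨h.1, Or.inr h.2⟩
  rw [e]
  exact key _ (Finset.Subset.refl _)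

/-- **Main theorem.** If some proper nonempty set of coefficients has sum zero and all the
coefficients sum to zero, solution-free sets have size `O(√n)`. -/
theorem genus_bound {k : ℕ} (a : Fin k → ℤ) (ha : ∀ i, a i ≠ 0) (T : Finset (Fin k))
    (hT : T.Nonempty) (hT' : T ≠ univ) (hsum : ∑ i ∈ T, a i = 0) (hall : ∑ i, a i = 0) :
    ∃ K : ℕ, ∀ (n : ℕ) (A : Finset ℕ), A ⊆ Icc 1 n → SolutionFree a A → A.card ^ 2 ≤ K * n := by
  classical
  have hc : ∑ i ∈ Tᶜ, a i = 0 := by
    have := Finset.sum_add_sum_compl T a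
    omega
  have hTc : (Tᶜ).Nonempty := by
    rw [Finset.nonempty_iff_ne_empty]
    intro e
    exact hT' ((Finset.compl_eq_empty_iff T).mp e)
  obtain ⟨i0, hi0, hP⟩ := exists_good T (fun i _ => ha i) hT hsum
  obtain ⟨j0, hj0, hQ⟩ := exists_good Tᶜ (fun i _ => ha i) hTc hc
  have hdisj : Disjoint (T.erase i0) (Tᶜ.erase j0) :=
    (disjoint_compl_right (a := T)).mono (Finset.erase_subset _ _) (Finset.erase_subset _ _)
  obtain ⟨K, hK⟩ := claim_all hP hQ hdisj
  refine ⟨K + 1, fun n A hA hfree => ?_⟩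
  rcases Nat.eq_zero_or_pos n with rfl | hn
  · have : A = ∅ := by
      rw [Finset.eq_empty_iff_forall_notMem]
      intro x hx
      have := Finset.mem_Icc.mp (hA hx)
      omega
    rw [this]; simp
  have hcard : A.card ≤ n := by
    have := Finset.card_le_card hA
    rwa [Nat.card_Icc, Nat.add_sub_cancel] at this
  have hoff : A.offDiag.card = A.card * A.card - A.card := Finset.offDiag_card A
  by_contra hcon
  push Not at hcon
  have hle : A.card ≤ A.card * A.card := Nat.le_mul_self _
  obtain ⟨t, ht, f, g1, g2, g3⟩ := hK n A A.offDiag hn hA (fun t ht => by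
      have := Finset.mem_offDiag.mp ht
      exact Finset.mem_product.mpr ⟨this.1, this.2.1⟩)
    (fun t ht => (Finset.mem_offDiag.mp ht).2.2) (by
      rw [hoff]
      rw [add_mul, one_mul, sq] at hcon
      omega)
  have htA := Finset.mem_offDiag.mp ht
  have hij : i0 ≠ j0 := by
    intro e
    rw [e] at hi0
    exact (Finset.mem_compl.mp hj0) hi0
  set x : Fin k → ℕ := fun i => if i = i0 then t.1 else if i = j0 then t.2 else f i with hx
  have hx0 : x i0 = t.1 := by simp [hx]
  have hxj : x j0 = t.2 := by simp [hx, Ne.symm hij]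
  have hxo : ∀ i, i ≠ i0 → i ≠ j0 → x i = f i := fun i h1 h2 => by simp [hx, h1, h2]
  have hmem : ∀ i, i ≠ i0 → i ≠ j0 → i ∈ T.erase i0 ∪ Tᶜ.erase j0 := by
    intro i h1 h2
    rw [Finset.mem_union, Finset.mem_erase, Finset.mem_erase, Finset.mem_compl]
    tauto
  refine hfree x ?_ ?_ ?_
  · intro i
    by_cases h1 : i = i0
    · rw [h1, hx0]; exact htA.1
    by_cases h2 : i = j0
    · rw [h2, hxj]; exact htA.2.1
    rw [hxo i h1 h2]
    exact (g1 i (hmem i h1 h2)).1
  · intro i j e
    by_cases h1 : i = i0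
    · by_cases h2 : j = i0
      · rw [h1, h2]
      by_cases h3 : j = j0
      · rw [h1, h3, hx0, hxj] at e
        exact absurd e htA.2.2
      rw [h1, hx0, hxo j h2 h3] at e
      exact absurd e.symm (g1 j (hmem j h2 h3)).2.1
    by_cases h1' : i = j0
    · by_cases h2 : j = i0
      · rw [h1', h2, hx0, hxj] at e
        exact absurd e.symm htA.2.2
      by_cases h3 : j = j0
      · rw [h1', h3]
      rw [h1', hxj, hxo j h2 h3] at e
      exact absurd e.symm (g1 j (hmem j h2 h3)).2.2
    rw [hxo i h1 h1'] at e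
    by_cases h2 : j = i0
    · rw [h2, hx0] at e
      exact absurd e (g1 i (hmem i h1 h1')).2.1
    by_cases h3 : j = j0
    · rw [h3, hxj] at e
      exact absurd e (g1 i (hmem i h1 h1')).2.2
    rw [hxo j h2 h3] at e
    exact g2 (by exact_mod_cast hmem i h1 h1') (by exact_mod_cast hmem j h2 h3) e
  · rw [← Finset.sum_add_sum_compl T, ← Finset.sum_erase_add T _ hi0,
      ← Finset.sum_erase_add Tᶜ _ hj0, hx0, hxj]
    have e1 : ∑ i ∈ T.erase i0, a i * ((x i : ℕ) : ℤ) = ∑ i ∈ T.erase i0, a i * (f i : ℤ) := by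
      apply Finset.sum_congr rfl
      intro i hi
      rw [hxo i (Finset.ne_of_mem_erase hi) (fun e => by
        rw [e] at hi
        exact (Finset.mem_compl.mp hj0) (Finset.mem_of_mem_erase hi))]
    have e2 : ∑ i ∈ Tᶜ.erase j0, a i * ((x i : ℕ) : ℤ) = ∑ i ∈ Tᶜ.erase j0, a i * (f i : ℤ) := by
      apply Finset.sum_congr rfl
      intro i hi
      rw [hxo i (fun e => by
        rw [e] at hi
        exact (Finset.mem_compl.mp (Finset.mem_of_mem_erase hi)) hi0) (Finset.ne_of_mem_erase hi)]
    rw [e1, e2]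
    have e3 := Finset.sum_erase_add T a hi0
    have e4 := Finset.sum_erase_add Tᶜ a hj0
    rw [hsum] at e3
    rw [hc] at e4
    linear_combination g3 + (t.1 : ℤ) * e3 + (t.2 : ℤ) * e4

end Pool.Agent.Work.MP_e8d560_co
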