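import Pool.Agent.Work.MP_e8d560_co.Digits

/-! The exponent tends to one when a multiple of the coefficient vector is congruent, modulo a large
`N`, to a fixed vector with exactly one negative coordinate. -/

namespace Pool.Agent.Work.MP_e8d560_co

open Finset Filter

/-- choice of the size of the box -/
theorem box_choice (s d : ℕ) (hs : 1 ≤ s) (hd : 3 ≤ d) {β : ℝ} (hβ : β < 1 - 2 / d) :
    ∀ᶠ N : ℕ in atTop, ∃ D : ℕ, 1 ≤ D ∧ s * (s * D) ^ d < N ∧
      (N : ℝ) ^ β ≤ (D : ℝ) ^ d / (d * (D : ℝ) ^ 2) := by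
  have hsR : (0 : ℝ) < s := by exact_mod_cast hs
  have hdR : (0 : ℝ) < d := by
    have : 0 < d := by omega
    exact_mod_cast this
  set K : ℝ := (1 / (s : ℝ)) ^ ((1 : ℝ) / d) / (4 * s) with hK
  have hKpos : 0 < K := by positivity
  have t1 : Tendsto (fun N : ℕ => (N : ℝ) ^ ((1 : ℝ) / d)) atTop atTop :=
    (tendsto_rpow_atTop (by positivity)).comp tendsto_natCast_atTop_atTop
  have t2 : Tendsto (fun N : ℕ => (N : ℝ) ^ ((1 - 2 / d : ℝ) - β)) atTop atTop :=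
    (tendsto_rpow_atTop (by linarith)).comp tendsto_natCast_atTop_atTop
  filter_upwards [t1.eventually (eventually_ge_atTop (1 / K)),
    t2.eventually (eventually_ge_atTop (d / K ^ (d - 2))), eventually_ge_atTop 1] with N h1 h2 h3
  have hN : (0 : ℝ) < N := by exact_mod_cast h3
  set z : ℝ := K * (N : ℝ) ^ ((1 : ℝ) / d) with hz
  have hz1 : 1 ≤ z := by
    rw [div_le_iff₀ hKpos] at h1
    rw [hz]
    linarith
  have hy : (2 * z) = ((N : ℝ) / s) ^ ((1 : ℝ) / d) / (2 * s) := by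
    rw [hz, hK, Real.div_rpow hN.le hsR.le, Real.div_rpow one_pos.le hsR.le, Real.one_rpow]
    field_simp
    ring
  refine ⟨⌊2 * z⌋₊, ?_, ?_, ?_⟩
  · rw [Nat.one_le_floor_iff]
    linarith
  · have h4 : ((⌊2 * z⌋₊ : ℕ) : ℝ) ≤ 2 * z := Nat.floor_le (by positivity)
    have h5 : (s : ℝ) * (s * (⌊2 * z⌋₊ : ℕ)) ^ d ≤ s * (s * (2 * z)) ^ d := by
      gcongr
    have h6 : (s : ℝ) * (s * (2 * z)) ^ d = N / 2 ^ d := by
      rw [hy]
      have : (s : ℝ) * (((N : ℝ) / s) ^ ((1 : ℝ) / d) / (2 * s)) =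
          ((N : ℝ) / s) ^ ((1 : ℝ) / d) / 2 := by
        field_simp
      rw [this, div_pow, ← Real.rpow_natCast, ← Real.rpow_mul (by positivity),
        one_div_mul_cancel hdR.ne', Real.rpow_one]
      field_simp
    have h7 : (N : ℝ) / 2 ^ d < N := by
      rw [div_lt_iff₀ (by positivity)]
      have : (1 : ℝ) < 2 ^ d := one_lt_pow₀ (by norm_num) (by omega)
      nlinarith
    have h8 : (s : ℝ) * (s * (⌊2 * z⌋₊ : ℕ)) ^ d < N := lt_of_le_of_lt (h5.trans_eq h6) h7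
    exact_mod_cast h8
  · have h4 : z ≤ ((⌊2 * z⌋₊ : ℕ) : ℝ) := by
      have := Nat.lt_floor_add_one (2 * z)
      linarith
    set D : ℕ := ⌊2 * z⌋₊ with hD
    have hDpos : (0 : ℝ) < D := by linarith
    have h5 : (D : ℝ) ^ d / (d * (D : ℝ) ^ 2) = (D : ℝ) ^ (d - 2) / d := by
      obtain ⟨e, rfl⟩ : ∃ e, d = e + 2 := ⟨d - 2, by omega⟩
      rw [Nat.add_sub_cancel, pow_add]
      field_simp
    rw [h5]
    have h6 : z ^ (d - 2) / d ≤ (D : ℝ) ^ (d - 2) / d := by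
      gcongr
    refine le_trans ?_ h6
    have h7 : z ^ (d - 2) = K ^ (d - 2) * (N : ℝ) ^ (1 - 2 / d : ℝ) := by
      rw [hz, mul_pow, ← Real.rpow_natCast ((N : ℝ) ^ ((1 : ℝ) / d)), ← Real.rpow_mul hN.le]
      congr 2
      rw [Nat.cast_sub (by omega)]
      push_cast
      field_simp
    have h8 : (N : ℝ) ^ (1 - 2 / d : ℝ) = (N : ℝ) ^ ((1 - 2 / d : ℝ) - β) * (N : ℝ) ^ β := by
      rw [← Real.rpow_add hN]
      congr 1
      ring
    rw [h7, h8, le_div_iff₀ hdR]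
    have h9 : (d : ℝ) ≤ K ^ (d - 2) * (N : ℝ) ^ ((1 - 2 / d : ℝ) - β) := by
      rw [div_le_iff₀ (by positivity)] at h2
      linarith
    have h10 : (0 : ℝ) < (N : ℝ) ^ β := Real.rpow_pos_of_pos hN _
    nlinarith

/-- from powers of `N` to all `n` -/
theorem powers_to_all {k : ℕ} (hk : 0 < k) (a : Fin k → ℤ) {N : ℕ} (hN : 2 ≤ N) {β γ : ℝ}
    (hβ : 0 < β) (hγ : γ < β) {M : ℕ} (hM : (N : ℝ) ^ β ≤ M) (h : ∀ m, M ^ m ≤ F a (N ^ m)) :
    ∀ᶠ n : ℕ in atTop, (n : ℝ) ^ γ ≤ F a n := by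
  have hNR : (0 : ℝ) < N := by
    have : 0 < N := by omega
    exact_mod_cast this
  have t : Tendsto (fun n : ℕ => (n : ℝ) ^ (β - γ)) atTop atTop :=
    (tendsto_rpow_atTop (by linarith)).comp tendsto_natCast_atTop_atTop
  filter_upwards [t.eventually (eventually_ge_atTop ((N : ℝ) ^ β)), eventually_ge_atTop 1]
    with n h1 h2
  have hn : (0 : ℝ) < n := by exact_mod_cast h2
  set m := Nat.log N n with hm
  have h3 : N ^ m ≤ n := Nat.pow_log_le_self N (by omega)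
  have h4 : n < N ^ (m + 1) := Nat.lt_pow_succ_log_self (by omega) n
  have h5 : ((N : ℝ) ^ β) ^ m ≤ F a n := by
    calc ((N : ℝ) ^ β) ^ m ≤ (M : ℝ) ^ m := by gcongr
      _ ≤ F a (N ^ m) := by exact_mod_cast h m
      _ ≤ F a n := by exact_mod_cast F_mono hk a h3
  refine le_trans ?_ h5
  have h6 : ((N : ℝ) ^ β) ^ m * (N : ℝ) ^ β = (((N ^ (m + 1) : ℕ)) : ℝ) ^ β := by
    push_cast
    rw [← pow_succ, ← Real.rpow_natCast, ← Real.rpow_mul hNR.le, ← Real.rpow_natCast,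
      ← Real.rpow_mul hNR.le, mul_comm]
  have h7 : (n : ℝ) ^ β ≤ (((N ^ (m + 1) : ℕ)) : ℝ) ^ β := by
    apply Real.rpow_le_rpow hn.le _ hβ.le
    exact_mod_cast h4.le
  have h8 : (n : ℝ) ^ β = (n : ℝ) ^ (β - γ) * (n : ℝ) ^ γ := by
    rw [← Real.rpow_add hn]
    congr 1
    ring
  have h9 : (0 : ℝ) < (n : ℝ) ^ γ := Real.rpow_pos_of_pos hn _
  have h10 : (0 : ℝ) < (N : ℝ) ^ β := Real.rpow_pos_of_pos hNR _
  rw [← h6, h8] at h7
  have h11 : (N : ℝ) ^ β * (n : ℝ) ^ γ ≤ ((N : ℝ) ^ β) ^ m * (N : ℝ) ^ β :=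
    (mul_le_mul_of_nonneg_right h1 h9.le).trans h7
  have h12 : (N : ℝ) ^ β * (n : ℝ) ^ γ ≤ (N : ℝ) ^ β * ((N : ℝ) ^ β) ^ m := by linarith
  exact le_of_mul_le_mul_left h12 h10

/-- The criterion. -/
theorem near_one {k : ℕ} (hk : 2 ≤ k) (c : Fin k → ℤ) (i0 : Fin k)
    (hpos : ∀ i, i ≠ i0 → 0 < c i) (hc : ∑ i, c i = 0) {ε : ℝ} (hε : 0 < ε) :
    ∃ N₀ : ℕ, ∀ N : ℕ, N₀ ≤ N → ∀ a : Fin k → ℤ, ∑ i, a i = 0 →
      ∀ u : ℤ, (∀ i, (N : ℤ) ∣ u * a i - c i) →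
        ∀ᶠ n : ℕ in atTop, (n : ℝ) ^ (1 - ε) ≤ F a n := by
  classical
  obtain ⟨δ, hδ0, hδ1, hδε⟩ : ∃ δ : ℝ, 0 < δ ∧ δ < 1 ∧ δ < ε :=
    ⟨min (ε / 2) (1 / 2), by positivity, lt_of_le_of_lt (min_le_right _ _) (by norm_num),
      lt_of_le_of_lt (min_le_left _ _) (by linarith)⟩
  obtain ⟨d, hd⟩ := exists_nat_gt (max (2 / δ) 3)
  have hd3 : 3 ≤ d := by
    have : (3 : ℝ) < d := lt_of_le_of_lt (le_max_right _ _) hd
    exact_mod_cast this.le
  have hdR : (0 : ℝ) < d := by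
    have : 0 < d := by omega
    exact_mod_cast this
  have hβ : 1 - δ < 1 - 2 / d := by
    have h1 : 2 / δ < d := lt_of_le_of_lt (le_max_left _ _) hd
    have h2 : 2 / d < δ := by
      rw [div_lt_iff₀ hδ0] at h1
      rw [div_lt_iff₀ hdR]
      linarith
    linarith
  have hs0 : ∑ i ∈ univ.erase i0, c i + c i0 = 0 := by
    rw [Finset.sum_erase_add _ _ (Finset.mem_univ _), hc]
  obtain ⟨i1, hi1⟩ : ∃ i1 : Fin k, i1 ≠ i0 := by
    have : 1 < Fintype.card (Fin k) := by rw [Fintype.card_fin]; omega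
    have := Fintype.one_lt_card_iff_nontrivial.mp this
    exact exists_ne i0
  have hneg : c i0 < 0 := by
    have : 0 < ∑ i ∈ univ.erase i0, c i :=
      Finset.sum_pos (fun i hi => hpos i (Finset.ne_of_mem_erase hi))
        ⟨i1, Finset.mem_erase.mpr ⟨hi1, Finset.mem_univ _⟩⟩
    omega
  set s := (c i0).natAbs with hs
  have hsz : (s : ℤ) = - c i0 := by omega
  have hs1 : 1 ≤ s := by omega
  have hev := (box_choice s d hs1 hd3 hβ).and (eventually_ge_atTop 2)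
  rw [eventually_atTop] at hev
  obtain ⟨N₀, hN₀⟩ := hev
  refine ⟨N₀, fun N hN a ha u hu => ?_⟩
  obtain ⟨⟨D, hD1, hD2, hD3⟩, hN2⟩ := hN₀ N hN
  obtain ⟨A, hA1, hA2, hA3⟩ := convexStrict hk c i0 hpos hc d D hD1
  rw [← hs] at hA1
  have hAN : A ⊆ range N := by
    refine hA1.trans (Finset.range_subset_range.mpr ?_)
    have : 1 * (s * D) ^ d ≤ s * (s * D) ^ d := Nat.mul_le_mul_right _ hs1
    omega
  have hstrict : ∀ x : Fin k → ℕ, (∀ i, x i ∈ A) → (N : ℤ) ∣ ∑ i, a i * (x i : ℤ) →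
      ∀ i, x i = x i0 := by
    intro x hx hdvd
    apply hA3 x hx
    have h1 : (N : ℤ) ∣ ∑ i, c i * (x i : ℤ) := by
      have h2 : ∑ i, c i * (x i : ℤ) = u * ∑ i, a i * (x i : ℤ) -
          ∑ i, (u * a i - c i) * (x i : ℤ) := by
        rw [Finset.mul_sum, ← Finset.sum_sub_distrib]
        apply Finset.sum_congr rfl
        intro i _
        ring
      rw [h2]
      apply dvd_sub (hdvd.mul_left u)
      apply Finset.dvd_sum
      intro i _
      exact (hu i).mul_right _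
    have hlt : ∀ i, (x i : ℤ) < ((s * D) ^ d : ℕ) := fun i => by
      exact_mod_cast Finset.mem_range.mp (hA1 (hx i))
    have hub : ∑ i ∈ univ.erase i0, c i * (x i : ℤ) ≤ s * ((s * D) ^ d : ℕ) := by
      calc ∑ i ∈ univ.erase i0, c i * (x i : ℤ)
          ≤ ∑ i ∈ univ.erase i0, c i * ((s * D) ^ d : ℕ) := by
            apply Finset.sum_le_sum
            intro i hi
            exact mul_le_mul_of_nonneg_left (hlt i).le (hpos i (Finset.ne_of_mem_erase hi)).le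
        _ = s * ((s * D) ^ d : ℕ) := by
            rw [← Finset.sum_mul]
            congr 1
            linarith
    have hlb : 0 ≤ ∑ i ∈ univ.erase i0, c i * (x i : ℤ) :=
      Finset.sum_nonneg (fun i hi => mul_nonneg (hpos i (Finset.ne_of_mem_erase hi)).le
        (by positivity))
    have hx0 : (0 : ℤ) ≤ s * (x i0 : ℤ) := by positivity
    have hx1 : s * (x i0 : ℤ) ≤ s * ((s * D) ^ d : ℕ) :=
      mul_le_mul_of_nonneg_left (hlt i0).le (by positivity)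
    have htot : ∑ i, c i * (x i : ℤ) = ∑ i ∈ univ.erase i0, c i * (x i : ℤ) - s * (x i0 : ℤ) := by
      rw [← Finset.sum_erase_add _ _ (Finset.mem_univ i0), hsz]
      ring
    have hNZ : (s : ℤ) * ((s * D) ^ d : ℕ) < N := by exact_mod_cast hD2
    apply Int.eq_zero_of_abs_lt_dvd h1
    rw [abs_lt]
    constructor <;> linarith
  exact powers_to_all (by omega) a hN2 (β := 1 - δ) (γ := 1 - ε) (by linarith) (by linarith)
    (hD3.trans hA2) (fun m => digit_le_F hk a ha i0 A hAN hstrict m)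

end Pool.Agent.Work.MP_e8d560_co
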